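import Mathlib
import Pool.Agent.TH813.EllC2

/-!
# Job 2984: elliptic functions on the curve of another lattice

Two-lattice version of `Pool.Agent.TH55.EL.endo` (helper55).
-/

set_option autoImplicit false

open Filter
open scoped Topology PeriodPair

noncomputable section

namespace Pool.Agent.TH511.EL

open H667R3 Pool.Agent.W245.EB Pool.Agent.TH813.Ell Pool.Agent.TH55.EL

variable {L L' : PeriodPair}

theorem mult_mem2 {A B : ℂ → ℂ} (hA : Ellip L A) (hB : Ellip L B)
    (h : (fun z => B z ^ 2) =ᶠ[codiscrete ℂ] fun z => 4 * A z ^ 3 - L'.g₂ * A z - L'.g₃)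
    (hB0 : ∀ x, meromorphicOrderAt B x ≠ ⊤) {c : ℂ} (hc : c ≠ 0)
    (hAB : deriv A =ᶠ[codiscrete ℂ] fun z => c * B z) :
    ∀ w ∈ L.lattice, c * w ∈ L'.lattice := by
  intro l hl
  by_contra hcl
  -- a good point
  have hgood : ∀ᶠ z in codiscrete ℂ, (AnalyticAt ℂ A z ∧ AnalyticAt ℂ B z ∧
      B z ^ 2 = 4 * A z ^ 3 - L'.g₂ * A z - L'.g₃ ∧ deriv A z = c * B z) ∧ B z ≠ 0 := by
    refine cod_iff.2 fun x => ?_
    filter_upwards [(hA.1 x).eventually_analyticAt, (hB.1 x).eventually_analyticAt,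
      cod_iff.1 h x, cod_iff.1 hAB x,
      (meromorphicOrderAt_ne_top_iff_eventually_ne_zero (hB.1 x)).1 (hB0 x)]
      with z h1 h2 h3 h4 h5
    exact ⟨⟨h1, h2, h3, h4⟩, h5⟩
  obtain ⟨z1, hz1⟩ := exists_of_cod hgood
  obtain ⟨⟨-, -, hrel, -⟩, hBz1⟩ := hz1.self_of_nhds
  obtain ⟨e, he, he1, he2⟩ : ∃ e, e ∉ L'.lattice ∧ ℘[L'] e = A z1 ∧ ℘'[L'] e = B z1 := by
    obtain ⟨e, he, he1⟩ := exists_wp_eq L' (A z1)
    have h1 := L'.derivWeierstrassP_sq e he
    rw [he1, ← hrel] at h1
    rcases sq_eq_sq_iff_eq_or_eq_neg.1 h1 with h2 | h2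
    · exact ⟨e, he, he1, h2⟩
    · refine ⟨-e, fun hh => he (by simpa using neg_mem hh), ?_, ?_⟩
      · rw [L'.weierstrassP_neg, he1]
      · rw [L'.derivWeierstrassP_neg, h2, neg_neg]
  have hloc := local_eq he he1 he2 hBz1 (hz1.mono fun z hz => hz.1)
  -- identity theorem
  have hid : A =ᶠ[codiscrete ℂ] fun z => ℘[L'] (e + c * (z - z1)) := by
    have hm : Meromorphic (fun z => A z - ℘[L'] (e + c * (z - z1))) := fun x =>
      (hA.1 x).fun_sub (meromorphic_aff hc x)
    rcases zero_or hm with h1 | h1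
    · filter_upwards [h1] with z hz
      exact sub_eq_zero.1 hz
    · exfalso
      apply h1 z1
      rw [meromorphicOrderAt_eq_top_iff]
      filter_upwards [hloc.filter_mono nhdsWithin_le_nhds] with z hz
      rw [hz, sub_self]
  -- periodicity near the pole
  set z0 : ℂ := z1 - e / c with hz0
  have hφ0 : e + c * (z0 - z1) = 0 := by
    rw [hz0]
    field_simp
    ring
  have hφ0' : ∀ z, e + c * (z + l - z1) = (e + c * (z - z1)) + c * l := fun z => by ring
  have htr : Tendsto (fun z : ℂ => z + l) (𝓝[≠] z0) (𝓝[≠] (z0 + l)) := by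
    refine tendsto_nhdsWithin_iff.2 ⟨?_, ?_⟩
    · have : Continuous fun z : ℂ => z + l := by fun_prop
      exact this.continuousAt.tendsto.mono_left nhdsWithin_le_nhds
    · filter_upwards [self_mem_nhdsWithin] with z hz hz2
      apply hz
      have h2 : z + l = z0 + l := hz2
      exact add_right_cancel h2
  have hev : ∀ᶠ z in 𝓝[≠] z0, ℘[L'] (e + c * (z - z1) + c * l) = ℘[L'] (e + c * (z - z1)) := by
    filter_upwards [htr.eventually (cod_iff.1 hid (z0 + l)), cod_iff.1 hid z0,
      cod_iff.1 (hA.2 l hl) z0] with z h1 h2 h3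
    rw [← hφ0', ← h1, ← h2, h3]
  have hpole : Tendsto (fun z => ℘[L'] (e + c * (z - z1))) (𝓝[≠] z0) (Bornology.cobounded ℂ) := by
    have h1 : Tendsto ℘[L'] (𝓝[≠] (0 : ℂ)) (Bornology.cobounded ℂ) := by
      refine tendsto_cobounded_of_meromorphicOrderAt_neg ?_
      rw [L'.order_weierstrassP 0 (zero_mem _)]
      have : ((-2 : ℤ) : WithTop ℤ) < ((0 : ℤ) : WithTop ℤ) := by
        exact WithTop.coe_lt_coe.2 (by norm_num)
      exact this
    have h2 := tendsto_aff (e := e) (z1 := z1) (z0 := z0) hc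
    rw [hφ0] at h2
    exact h1.comp h2
  have hfin : Tendsto (fun z => ℘[L'] (e + c * (z - z1) + c * l)) (𝓝[≠] z0) (𝓝 (℘[L'] (c * l))) := by
    have h1 : ContinuousAt ℘[L'] (c * l) := (analyticAt_wp hcl).continuousAt
    have h2 : Tendsto (fun z : ℂ => e + c * (z - z1) + c * l) (𝓝[≠] z0) (𝓝 (c * l)) := by
      have h3 : Continuous fun z : ℂ => e + c * (z - z1) + c * l := by fun_prop
      have h4 := (h3.continuousAt (x := z0)).tendsto.mono_left
        (nhdsWithin_le_nhds (s := ({z0}ᶜ : Set ℂ)))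
      have h5 : e + c * (z0 - z1) + c * l = c * l := by rw [hφ0, zero_add]
      rwa [h5] at h4
    exact h1.tendsto.comp h2
  have h6 := hfin.congr' hev
  exact not_tendsto_atTop_of_tendsto_nhds h6.norm (tendsto_norm_cobounded_atTop.comp hpole)

/-- `endo2`, assuming the theorem of Liouville for the quotient `A' / B` -/
theorem endo_of2 {A B : ℂ → ℂ} (hA : Ellip L A) (hB : Ellip L B)
    (h : (fun z => B z ^ 2) =ᶠ[codiscrete ℂ] fun z => 4 * A z ^ 3 - L'.g₂ * A z - L'.g₃)
    (liouville : (∀ z, 0 ≤ meromorphicOrderAt (fun z => deriv A z * (B z)⁻¹) z) →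
      ∃ c : ℂ, (fun z => deriv A z * (B z)⁻¹) =ᶠ[codiscrete ℂ] fun _ => c) :
    ∃ c : ℂ, (∀ w ∈ L.lattice, c * w ∈ L'.lattice) ∧
      deriv A =ᶠ[codiscrete ℂ] fun z => c * B z := by
  have hzero : deriv A =ᶠ[codiscrete ℂ] (fun _ => 0) →
      ∃ c : ℂ, (∀ w ∈ L.lattice, c * w ∈ L'.lattice) ∧
      deriv A =ᶠ[codiscrete ℂ] fun z => c * B z := by
    intro h0
    refine ⟨0, fun w _ => by simp, ?_⟩
    filter_upwards [h0] with z hz
    simp [hz]
  have hdA : Meromorphic (deriv A) := fun x => (hA.1 x).deriv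
  rcases zero_or hB.1 with hB0 | hB0
  · apply hzero
    rcases zero_or hdA with h1 | h1
    · exact h1
    · exfalso
      have h2 : (fun z => 4 * A z ^ 3 - L'.g₂ * A z - L'.g₃) =ᶠ[codiscrete ℂ] fun _ => (0 : ℂ) := by
        filter_upwards [h, hB0] with z hz hz2
        rw [← hz, hz2]
        norm_num
      have h3 := cod_deriv h2
      obtain ⟨z, hz⟩ : ∃ z : ℂ, False := by
        have h4 : ∀ᶠ z in 𝓝[≠] (0 : ℂ), False := by
          filter_upwards [cod_iff.1 h3 0, cod_iff.1 h2 0, (hA.1 0).eventually_analyticAt,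
            (meromorphicOrderAt_ne_top_iff_eventually_ne_zero (hdA 0)).1 (h1 0)]
            with z e1 e2 e3 e4
          have h5 := e3.differentiableAt.hasDerivAt
          have h6 := ((((h5.fun_pow 3).const_mul 4).fun_sub (h5.const_mul L'.g₂)).sub_const
            L'.g₃).deriv
          rw [h6] at e1
          simp only [deriv_const'] at e1
          have h7 : (12 * A z ^ 2 - L'.g₂) * deriv A z = 0 := by
            rw [← e1]
            push_cast
            ring
          rcases mul_eq_zero.1 h7 with h8 | h8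
          · exact simple_roots _ e2 h8
          · exact e4 h8
        exact h4.exists
      exact hz
  · have hord : ∀ z, 0 ≤ meromorphicOrderAt (fun z => deriv A z * (B z)⁻¹) z := by
      intro x
      have h1 := ord_le (hA.1 x) (hB.1 x) (cod_iff.1 h x) (hB0 x)
      have e1 : (fun z => deriv A z * (B z)⁻¹) = deriv A * B⁻¹ := rfl
      rw [e1, meromorphicOrderAt_mul (hdA x) (hB.1 x).inv, meromorphicOrderAt_inv]
      obtain ⟨b, hb⟩ := WithTop.ne_top_iff_exists.1 (hB0 x)
      rw [← hb] at h1 ⊢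
      by_cases ht : meromorphicOrderAt (deriv A) x = ⊤
      · rw [ht]
        simp
      · obtain ⟨a, ha⟩ := WithTop.ne_top_iff_exists.1 ht
        rw [← ha] at h1 ⊢
        have h2 : b ≤ a := by exact_mod_cast h1
        have h3 : (a : WithTop ℤ) + -(b : WithTop ℤ) = ((a - b : ℤ) : WithTop ℤ) := by
          rw [sub_eq_add_neg]
          norm_cast
        rw [h3]
        exact_mod_cast (by omega : 0 ≤ a - b)
    obtain ⟨c, hcc⟩ := liouville hord
    have hAB : deriv A =ᶠ[codiscrete ℂ] fun z => c * B z := by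
      refine cod_iff.2 fun x => ?_
      filter_upwards [cod_iff.1 hcc x,
        (meromorphicOrderAt_ne_top_iff_eventually_ne_zero (hB.1 x)).1 (hB0 x)] with z h1 h2
      rw [← h1, mul_assoc, inv_mul_cancel₀ h2, mul_one]
    by_cases hc : c = 0
    · apply hzero
      filter_upwards [hAB] with z hz
      rw [hz, hc, zero_mul]
    · exact ⟨c, mult_mem2 hA hB h hB0 hc hAB, hAB⟩

/-- **Elliptic functions on the curve of a second lattice**: a point of the curve of `L'` with
values in the field of elliptic functions for `L` is given by a multiplication `c L ⊆ L'`, up to a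
translation. -/
theorem endo2 {A B : ℂ → ℂ} (hA : Ellip L A) (hB : Ellip L B)
    (h : (fun z => B z ^ 2) =ᶠ[codiscrete ℂ] fun z => 4 * A z ^ 3 - L'.g₂ * A z - L'.g₃) :
    ∃ c : ℂ, (∀ w ∈ L.lattice, c * w ∈ L'.lattice) ∧
      _root_.deriv A =ᶠ[codiscrete ℂ] fun z => c * B z := by
  have hE : Ellip L (fun z => deriv A z * (B z)⁻¹) := by
    refine ⟨fun x => ((hA.1 x).deriv).fun_mul (hB.1 x).inv, ?_⟩
    intro l hl
    have h1 := cod_deriv (hA.2 l hl)
    filter_upwards [h1, hB.2 l hl] with z hz hz2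
    rw [deriv_comp_add_const] at hz
    rw [hz, hz2]
  exact endo_of2 hA hB h (Pool.Agent.TH813.Ell.liouville hE)

end Pool.Agent.TH511.EL
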